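import Mathlib

/-!
# Colouring sequences which do not dominate a given one

For every `D ≥ 1` there is a Borel function `C` with values in `{0, ..., D}` such that any `D` consecutive
shifts of `u` have distinct colours `C (ζ, ·)`, for all `ζ, u` with `u` eventually strictly increasing and
such that no shift of `u` dominates `ζ`.
-/

set_option autoImplicit false

namespace Pool.Agent.H90.BCI

open Set MeasureTheory

/-- a monotone bound of `ζ` -/
def zh (ζ : ℕ → ℕ) (m : ℕ) : ℕ := (∑ k ∈ Finset.range (m + 1), ζ k) + m + 1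

lemma le_zh (ζ : ℕ → ℕ) (m : ℕ) : ζ m ≤ zh ζ m := by
  unfold zh
  have h := Finset.single_le_sum (f := ζ) (s := Finset.range (m + 1)) (fun _ _ => Nat.zero_le _)
    (Finset.mem_range.mpr (Nat.lt_succ_self m))
  omega

lemma zh_mono (ζ : ℕ → ℕ) : Monotone (zh ζ) := by
  intro a b hab
  unfold zh
  have h : ∑ k ∈ Finset.range (a + 1), ζ k ≤ ∑ k ∈ Finset.range (b + 1), ζ k :=
    Finset.sum_le_sum_of_subset (Finset.range_mono (by omega))
  omega

/-- the ends of the blocks -/
def w (ζ : ℕ → ℕ) : ℕ → ℕ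
  | 0 => 0
  | r + 1 => zh ζ (w ζ r) + 2 * w ζ r + 1

lemma w_zero (ζ : ℕ → ℕ) : w ζ 0 = 0 := rfl
lemma w_succ (ζ : ℕ → ℕ) (r : ℕ) : w ζ (r + 1) = zh ζ (w ζ r) + 2 * w ζ r + 1 := rfl

lemma w_strictMono (ζ : ℕ → ℕ) : StrictMono (w ζ) :=
  strictMono_nat_of_lt_succ fun r => by rw [w_succ]; omega

lemma w_ge (ζ : ℕ → ℕ) (r : ℕ) : 2 ^ r ≤ w ζ r + 1 := by
  induction r with
  | zero => simp
  | succ r ih => rw [w_succ, pow_succ]; omega

lemma measurable_zh : Measurable (fun p : (ℕ → ℕ) × ℕ => zh p.1 p.2) := by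
  apply measurable_from_prod_countable_left
  intro m
  have h : Measurable (fun ζ : ℕ → ℕ => ∑ k ∈ Finset.range (m + 1), ζ k) :=
    Finset.measurable_sum (f := fun k (ζ : ℕ → ℕ) => ζ k) _ (fun k _ => measurable_pi_apply k)
  exact (h.add_const m).add_const 1

lemma measurable_w (r : ℕ) : Measurable (fun ζ : ℕ → ℕ => w ζ r) := by
  induction r with
  | zero => exact measurable_const
  | succ r ih =>
    have h1 : Measurable (fun ζ : ℕ → ℕ => zh ζ (w ζ r)) :=
      measurable_zh.comp (measurable_id.prodMk ih)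
    exact (h1.add (ih.const_mul 2)).add_const 1

/-- the marker set -/
def Mk (b : ℕ) (ζ u : ℕ → ℕ) : Prop :=
  StrictMono u ∧ ∃ r, w ζ r ≤ u 0 ∧ u (b - 1) < w ζ (r + 1) ∧ w ζ (r + 1) ≤ u b

/-- the set of the pairs with a marker at `n` -/
def Q (b n : ℕ) : Set ((ℕ → ℕ) × (ℕ → ℕ)) := {p | Mk b p.1 fun m => p.2 (n + m)}

lemma strictMono_iff_nat (u : ℕ → ℕ) : StrictMono u ↔ ∀ m, u m < u (m + 1) :=
  ⟨fun h m => h (Nat.lt_succ_self m), strictMono_nat_of_lt_succ⟩

lemma measurableSet_Q (b n : ℕ) : MeasurableSet (Q b n) := by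
  have hu : ∀ m, Measurable (fun p : (ℕ → ℕ) × (ℕ → ℕ) => p.2 m) := fun m =>
    (measurable_pi_apply m).comp measurable_snd
  have hw : ∀ r, Measurable (fun p : (ℕ → ℕ) × (ℕ → ℕ) => w p.1 r) := fun r =>
    (measurable_w r).comp measurable_fst
  have h1 : Q b n = (⋂ m, {p | p.2 (n + m) < p.2 (n + (m + 1))}) ∩
      ⋃ r, ({p | w p.1 r ≤ p.2 (n + 0)} ∩ ({p | p.2 (n + (b - 1)) < w p.1 (r + 1)} ∩
        {p | w p.1 (r + 1) ≤ p.2 (n + b)})) := by
    ext p
    simp only [Q, Mk, strictMono_iff_nat, mem_ofPred_eq, mem_inter_iff, mem_iInter, mem_iUnion]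
  rw [h1]
  apply MeasurableSet.inter
  · exact MeasurableSet.iInter fun m => measurableSet_lt (hu _) (hu _)
  · exact MeasurableSet.iUnion fun r => (measurableSet_le (hw _) (hu _)).inter
      ((measurableSet_lt (hu _) (hw _)).inter (measurableSet_le (hw _) (hu _)))

lemma marker_dist {b : ℕ} {ζ u : ℕ → ℕ} {n k : ℕ} (h1 : Mk b ζ fun m => u (n + m))
    (h2 : Mk b ζ fun m => u (n + k + m)) (hk : 0 < k) : b ≤ k := by
  by_contra hlt
  push Not at hlt
  obtain ⟨hm, r, hr1, hr2, hr3⟩ := h1
  obtain ⟨hm', r', hr1', hr2', hr3'⟩ := h2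
  simp only at hr1 hr2 hr3 hr1' hr2' hr3'
  have hmle : ∀ a c, a ≤ c → u (n + a) ≤ u (n + c) := fun a c hac => hm.monotone hac
  have e1 : u (n + k + 0) ≤ u (n + (b - 1)) := by
    have := hmle k (b - 1) (by omega)
    simpa [add_assoc] using this
  have hrr : r' ≤ r := by
    by_contra h
    push Not at h
    have := (w_strictMono ζ).monotone (show r + 1 ≤ r' from h)
    omega
  have e2 : w ζ (r' + 1) ≤ w ζ (r + 1) := (w_strictMono ζ).monotone (by omega)
  have e3 : u (n + b) ≤ u (n + k + (b - 1)) := by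
    have := hmle b (k + (b - 1)) (by omega)
    simpa [add_assoc] using this
  omega

lemma sq_le_pow (r : ℕ) : (r + 2) ^ 2 ≤ 2 ^ r + 20 := by
  rcases Nat.lt_or_ge r 6 with h | h
  · interval_cases r <;> norm_num
  · induction r, h using Nat.le_induction with
    | base => norm_num
    | succ r hr ih =>
      have h1 : (r + 3) ^ 2 + 20 ≤ 2 * (r + 2) ^ 2 := by nlinarith
      have h2 : 2 ^ (r + 1) = 2 * 2 ^ r := by rw [pow_succ]; ring
      rw [h2]
      have h3 : (r + 1 + 2) ^ 2 = (r + 3) ^ 2 := by ring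
      rw [h3]
      omega

/-- markers recur -/
lemma markers_recur {b : ℕ} (hb : 1 ≤ b) {ζ v : ℕ → ℕ} (hv : StrictMono v)
    (hζ : ∀ i, ∃ m, v (i + m) < ζ m) (n0 : ℕ) : ∃ n, n0 ≤ n ∧ Mk b ζ fun m => v (n + m) := by
  classical
  have hex : ∀ r, ∃ j, w ζ r ≤ v j := fun r => ⟨w ζ r, hv.le_apply⟩
  set g : ℕ → ℕ := fun r => Nat.find (hex r) with hg
  have hg1 : ∀ r j, g r ≤ j → w ζ r ≤ v j := fun r j hj =>
    (Nat.find_spec (hex r)).trans (hv.monotone hj)
  have hg2 : ∀ r j, j < g r → v j < w ζ r := fun r j hj => not_le.mp (Nat.find_min (hex r) hj)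
  have hg3 : ∀ r j, v j < w ζ r → j < g r := by
    intro r j hj
    by_contra h
    push Not at h
    exact absurd (hg1 r j h) (not_le.mpr hj)
  have hgm : Monotone g := by
    intro r s hrs
    by_contra h
    push Not at h
    have h1 := hg2 r (g s) h
    have h2 := hg1 s (g s) le_rfl
    have h3 := (w_strictMono ζ).monotone hrs
    omega
  by_contra hcon
  push Not at hcon
  have hstep : ∀ r, n0 ≤ g r → g (r + 1) < g r + b := by
    intro r hr
    by_contra h
    push Not at h
    refine hcon (g (r + 1) - b) (by omega) ⟨?_, r, ?_, ?_, ?_⟩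
    · intro x y hxy
      exact hv (by omega)
    · exact hg1 r _ (by omega)
    · exact hg2 (r + 1) _ (by omega)
    · exact hg1 (r + 1) _ (by omega)
  -- `g` is unbounded
  obtain ⟨r0, hr0⟩ : ∃ r0, n0 ≤ g r0 := by
    refine ⟨v n0 + 1, ?_⟩
    have h1 : v n0 < w ζ (v n0 + 1) := by
      have := (w_strictMono ζ).le_apply (x := v n0 + 1)
      omega
    exact (hg3 _ _ h1).le
  have hlin : ∀ r, g r ≤ g r0 + b * r := by
    intro r
    rcases Nat.lt_or_ge r r0 with h | h
    · exact (hgm h.le).trans (Nat.le_add_right _ _)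
    · induction r, h using Nat.le_induction with
      | base => exact Nat.le_add_right _ _
      | succ r hr ih =>
        have h1 := hstep r (hr0.trans (hgm hr))
        rw [mul_add]
        omega
  obtain ⟨m, hm⟩ := hζ (g r0 + b ^ 2 + 21)
  -- the block of `m`
  obtain ⟨r, hr1, hr2⟩ : ∃ r, w ζ r ≤ m ∧ m < w ζ (r + 1) := by
    have hex2 : ∃ r, m < w ζ (r + 1) := ⟨m, by
      have := (w_strictMono ζ).le_apply (x := m + 1)
      omega⟩
    refine ⟨Nat.find hex2, ?_, Nat.find_spec hex2⟩
    rcases Nat.eq_zero_or_pos (Nat.find hex2) with h | h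
    · rw [h, w_zero]; exact Nat.zero_le _
    · have := Nat.find_min hex2 (m := Nat.find hex2 - 1) (by omega)
      push Not at this
      rwa [Nat.sub_add_cancel h] at this
  have h1 : ζ m ≤ w ζ (r + 2) := by
    calc ζ m ≤ zh ζ m := le_zh ζ m
      _ ≤ zh ζ (w ζ (r + 1)) := zh_mono ζ hr2.le
      _ ≤ w ζ (r + 2) := by rw [w_succ ζ (r + 1)]; omega
  have h2 := hg3 (r + 2) _ (hm.trans_le h1)
  have h3 := hlin (r + 2)
  have h4 := w_ge ζ r
  have h5 := sq_le_pow r
  have h6 : b * (r + 2) ≤ b ^ 2 + (r + 2) ^ 2 := by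
    zify
    nlinarith [sq_nonneg ((b : ℤ) - (r + 2)), sq_nonneg ((b : ℤ) + (r + 2))]
  omega

/-- the colour as a function of the distance to the next marker and of the number of phase shifts -/
def col (D N l : ℕ) : ℕ :=
  if l * (D + 1) ≤ N then N % D else if N % (D + 1) = 0 then D else (N + l - N / (D + 1) - 1) % D

lemma col_le {D : ℕ} (hD : 1 ≤ D) (N l : ℕ) : col D N l ≤ D := by
  unfold col
  split_ifs
  · exact (Nat.mod_lt _ hD).le
  · exact le_rfl
  · exact (Nat.mod_lt _ hD).le

lemma mod_ne {D a k : ℕ} (hk0 : 0 < k) (hk : k < D) : (a + k) % D ≠ a % D := by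
  intro h
  have h1 : D ∣ (a + k) - a := (Nat.modEq_iff_dvd' (Nat.le_add_right a k)).mp h.symm
  rw [Nat.add_sub_cancel_left] at h1
  exact absurd (Nat.le_of_dvd hk0 h1) (not_le.mpr hk)

/-- both positions before the marker -/
lemma col_ne_same {D N l k : ℕ} (hk0 : 0 < k) (hk : k < D) : col D (N + k) l ≠ col D N l := by
  have hD : 0 < D := by omega
  have hlt : ∀ a, a % D < D := fun a => Nat.mod_lt _ hD
  have hN := Nat.div_add_mod N (D + 1)
  have hNl := Nat.mod_lt N (show 0 < D + 1 by omega)
  have hNk := Nat.div_add_mod (N + k) (D + 1)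
  have hNkl := Nat.mod_lt (N + k) (show 0 < D + 1 by omega)
  unfold col
  generalize N / (D + 1) = j at *
  generalize (N + k) / (D + 1) = j' at *
  generalize N % (D + 1) = s at *
  generalize (N + k) % (D + 1) = s' at *
  have hjj : j ≤ j' := by
    by_contra h
    push Not at h
    have : (D + 1) * (j' + 1) ≤ (D + 1) * j := Nat.mul_le_mul_left _ h
    nlinarith
  have hjj2 : j' ≤ j + 1 := by
    by_contra h
    push Not at h
    have : (D + 1) * (j + 2) ≤ (D + 1) * j' := Nat.mul_le_mul_left _ h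
    nlinarith
  by_cases h1 : l * (D + 1) ≤ N
  · rw [if_pos h1, if_pos (by omega : l * (D + 1) ≤ N + k)]
    exact mod_ne hk0 hk
  · rw [if_neg h1]
    push Not at h1
    have hjl : j < l := by
      by_contra h
      push Not at h
      have : (D + 1) * l ≤ (D + 1) * j := Nat.mul_le_mul_left _ h
      nlinarith
    by_cases h2 : l * (D + 1) ≤ N + k
    · rw [if_pos h2]
      -- `j = l - 1`
      have hj1 : j = l - 1 := by
        by_contra h
        have h3 : j + 2 ≤ l := by omega
        have : (D + 1) * (j + 2) ≤ (D + 1) * l := Nat.mul_le_mul_left _ h3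
        nlinarith
      have hl1 : l = j + 1 := by omega
      have hs0 : s ≠ 0 := by
        intro h
        rw [h] at hN
        rw [hl1] at h2
        nlinarith
      rw [if_neg hs0]
      have e1 : N + l - j - 1 = N := by omega
      rw [e1]
      exact mod_ne hk0 hk
    · rw [if_neg h2]
      push Not at h2
      have hjl' : j' < l := by
        by_contra h
        push Not at h
        have : (D + 1) * l ≤ (D + 1) * j' := Nat.mul_le_mul_left _ h
        nlinarith
      rcases Nat.lt_or_ge j j' with h3 | h3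
      · have hj1 : j' = j + 1 := by omega
        have hs0 : s ≠ 0 := by
          intro h
          rw [h] at hN
          rw [hj1] at hNk
          nlinarith
        rw [if_neg hs0]
        split_ifs with h4
        · exact (hlt _).ne'
        · -- `k ≥ 2`
          have hk2 : 2 ≤ k := by
            rw [hj1] at hNk
            have : (D + 1) * (j + 1) = (D + 1) * j + (D + 1) := by ring
            omega
          have e1 : N + k + l - j' - 1 = (N + l - j - 1) + (k - 1) := by omega
          rw [e1]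
          exact mod_ne (by omega) (by omega)
      · have hj1 : j' = j := by omega
        have hss : s' = s + k := by rw [hj1] at hNk; omega
        rw [if_neg (by omega : ¬ s' = 0)]
        split_ifs with h4
        · exact (hlt _).ne
        · have e1 : N + k + l - j' - 1 = (N + l - j - 1) + k := by omega
          rw [e1]
          exact mod_ne hk0 hk

/-- positions on both sides of a marker -/
lemma col_ne_across {D N l k : ℕ} (hk : k < D) (hNk : N < k) :
    col D N l ≠ (N + l + (D - k)) % D := by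
  have hD : 0 < D := by omega
  have hlt : ∀ a, a % D < D := fun a => Nat.mod_lt _ hD
  unfold col
  have hdiv : N / (D + 1) = 0 := Nat.div_eq_of_lt (by omega)
  have hmod : N % (D + 1) = N := Nat.mod_eq_of_lt (by omega)
  rw [hdiv, hmod]
  by_cases h1 : l * (D + 1) ≤ N
  · have hl : l = 0 := by
      by_contra h
      have : 1 * (D + 1) ≤ l * (D + 1) := Nat.mul_le_mul_right _ (Nat.one_le_iff_ne_zero.mpr h)
      omega
    rw [if_pos h1, hl, add_zero]
    exact (mod_ne (by omega) (by omega)).symm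
  · rw [if_neg h1]
    have hl : 0 < l := by
      by_contra h
      have : l = 0 := by omega
      rw [this] at h1
      omega
    split_ifs with h2
    · exact (hlt _).ne'
    · have e1 : N + l - 0 - 1 = N + (l - 1) := by omega
      have e2 : N + l + (D - k) = N + (l - 1) + (D - k + 1) := by omega
      rw [e1, e2]
      exact (mod_ne (by omega) (by omega)).symm

section
open Classical in
/-- distance to the next marker -/
noncomputable def NN (b : ℕ) (p : (ℕ → ℕ) × (ℕ → ℕ)) : ℕ :=
  Nat.find (p := fun n => p ∈ Q b n ∨ ∀ k, p ∉ Q b k) (by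
    by_cases h : ∃ n, p ∈ Q b n
    · obtain ⟨n, hn⟩ := h; exact ⟨n, Or.inl hn⟩
    · push Not at h; exact ⟨0, Or.inr h⟩)

open Classical in
/-- distance from the next marker to the following one -/
noncomputable def LL (b : ℕ) (p : (ℕ → ℕ) × (ℕ → ℕ)) : ℕ :=
  Nat.find (p := fun n => p ∈ Q b (NN b p + (n + 1)) ∨ ∀ k, p ∉ Q b (NN b p + (k + 1))) (by
    by_cases h : ∃ n, p ∈ Q b (NN b p + (n + 1))
    · obtain ⟨n, hn⟩ := h; exact ⟨n, Or.inl hn⟩
    · push Not at h; exact ⟨0, Or.inr h⟩)
end

lemma measurable_NN (b : ℕ) : Measurable (NN b) := by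
  classical
  unfold NN
  apply measurable_find
  intro k
  exact (measurableSet_Q b k).union (MeasurableSet.iInter fun j => (measurableSet_Q b j).compl) |>.congr
    (by ext p; simp [mem_iInter])

lemma measurableSet_QN (b j : ℕ) : MeasurableSet {p | p ∈ Q b (NN b p + j)} := by
  have h1 : {p | p ∈ Q b (NN b p + j)} = ⋃ n, ({p | NN b p = n} ∩ Q b (n + j)) := by
    ext p
    simp
  rw [h1]
  exact MeasurableSet.iUnion fun n =>
    ((measurableSet_singleton n).preimage (measurable_NN b)).inter (measurableSet_Q b _)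

lemma measurable_LL (b : ℕ) : Measurable (LL b) := by
  classical
  unfold LL
  apply measurable_find
  intro k
  exact (measurableSet_QN b (k + 1)).union
    (MeasurableSet.iInter fun j => (measurableSet_QN b (j + 1)).compl) |>.congr
    (by ext p; simp [mem_iInter])

/-- **Job C.** -/
theorem seq_colouring (D : ℕ) (hD : 1 ≤ D) :
    ∃ C : (ℕ → ℕ) × (ℕ → ℕ) → ℕ, Measurable C ∧ (∀ p, C p ≤ D) ∧
      ∀ ζ u : ℕ → ℕ, (∃ i₀, StrictMono fun m => u (i₀ + m)) →
        (∀ i, ∃ m, u (i + m) < ζ m) →
        ∀ i, 0 < i → i < D → C (ζ, u) ≠ C (ζ, fun m => u (i + m)) := by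
  classical
  set b : ℕ := D * (D + 1) + 1 with hb
  refine ⟨fun p => col D (NN b p) ((LL b p + 1) % D), ?_, fun p => col_le hD _ _, ?_⟩
  · have h1 : Measurable (fun q : ℕ × ℕ => col D q.1 ((q.2 + 1) % D)) := Measurable.of_discrete
    exact h1.comp ((measurable_NN b).prodMk (measurable_LL b))
  · intro ζ u hu hζ i hi0 hiD
    -- markers
    have hrec : ∀ n0, ∃ n, n0 ≤ n ∧ (ζ, u) ∈ Q b n := by
      intro n0
      obtain ⟨i₀, hi₀⟩ := hu
      obtain ⟨n, hn, hM⟩ := markers_recur (b := b) (by omega) hi₀ (by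
        intro i
        obtain ⟨m, hm⟩ := hζ (i₀ + i)
        exact ⟨m, by simpa [add_assoc] using hm⟩) n0
      refine ⟨i₀ + n, by omega, ?_⟩
      show Mk b ζ fun m => u (i₀ + n + m)
      simpa [add_assoc] using hM
    have hdist : ∀ n k, (ζ, u) ∈ Q b n → (ζ, u) ∈ Q b (n + k) → 0 < k → b ≤ k :=
      fun n k h1 h2 hk => marker_dist h1 h2 hk
    have hshift : ∀ i n, ((ζ, fun m => u (i + m)) : (ℕ → ℕ) × (ℕ → ℕ)) ∈ Q b n ↔
        (ζ, u) ∈ Q b (i + n) := by
      intro i n
      show Mk b ζ (fun m => u (i + (n + m))) ↔ Mk b ζ (fun m => u (i + n + m))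
      simp only [add_assoc]
    -- characterisation of `NN` and `LL` of a shift
    have hNN : ∀ i, (ζ, u) ∈ Q b (i + NN b (ζ, fun m => u (i + m))) ∧
        ∀ n < NN b (ζ, fun m => u (i + m)), (ζ, u) ∉ Q b (i + n) := by
      intro i
      have h1 := Nat.find_spec (p := fun n => ((ζ, fun m => u (i + m)) : (ℕ → ℕ) × (ℕ → ℕ)) ∈ Q b n ∨
        ∀ k, ((ζ, fun m => u (i + m)) : (ℕ → ℕ) × (ℕ → ℕ)) ∉ Q b k) (by
          obtain ⟨n, hn, hM⟩ := hrec i
          exact ⟨n - i, Or.inl ((hshift i _).mpr (by rwa [Nat.add_sub_cancel' hn]))⟩)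
      have h2 : ∃ n, ((ζ, fun m => u (i + m)) : (ℕ → ℕ) × (ℕ → ℕ)) ∈ Q b n := by
        obtain ⟨n, hn, hM⟩ := hrec i
        exact ⟨n - i, (hshift i _).mpr (by rwa [Nat.add_sub_cancel' hn])⟩
      constructor
      · rcases h1 with h1 | h1
        · exact (hshift i _).mp h1
        · obtain ⟨n, hn⟩ := h2
          exact absurd hn (h1 n)
      · intro n hn hM
        have h3 := Nat.find_min (p := fun n => ((ζ, fun m => u (i + m)) : (ℕ → ℕ) × (ℕ → ℕ)) ∈ Q b n ∨
          ∀ k, ((ζ, fun m => u (i + m)) : (ℕ → ℕ) × (ℕ → ℕ)) ∉ Q b k) _ hn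
        exact h3 (Or.inl ((hshift i n).mpr hM))
    have hLL : ∀ i, (ζ, u) ∈ Q b (i + NN b (ζ, fun m => u (i + m)) +
          (LL b (ζ, fun m => u (i + m)) + 1)) ∧
        ∀ n < LL b (ζ, fun m => u (i + m)),
          (ζ, u) ∉ Q b (i + NN b (ζ, fun m => u (i + m)) + (n + 1)) := by
      intro i
      set P := NN b (ζ, fun m => u (i + m)) with hP
      have h2 : ∃ n, ((ζ, fun m => u (i + m)) : (ℕ → ℕ) × (ℕ → ℕ)) ∈ Q b (P + (n + 1)) := by
        obtain ⟨n, hn, hM⟩ := hrec (i + P + 1)
        refine ⟨n - (i + P + 1), (hshift i _).mpr ?_⟩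
        have : i + (P + (n - (i + P + 1) + 1)) = n := by omega
        rwa [this]
      have h1 := Nat.find_spec (p := fun n => ((ζ, fun m => u (i + m)) : (ℕ → ℕ) × (ℕ → ℕ)) ∈
        Q b (P + (n + 1)) ∨ ∀ k, ((ζ, fun m => u (i + m)) : (ℕ → ℕ) × (ℕ → ℕ)) ∉ Q b (P + (k + 1))) (by
          obtain ⟨n, hn⟩ := h2
          exact ⟨n, Or.inl hn⟩)
      constructor
      · rcases h1 with h1 | h1
        · have := (hshift i _).mp h1
          rw [add_assoc]
          exact this
        · obtain ⟨n, hn⟩ := h2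
          exact absurd hn (h1 n)
      · intro n hn hM
        have h3 := Nat.find_min (p := fun n => ((ζ, fun m => u (i + m)) : (ℕ → ℕ) × (ℕ → ℕ)) ∈
          Q b (P + (n + 1)) ∨ ∀ k, ((ζ, fun m => u (i + m)) : (ℕ → ℕ) × (ℕ → ℕ)) ∉ Q b (P + (k + 1))) _ hn
        refine h3 (Or.inl ((hshift i _).mpr ?_))
        rwa [← add_assoc]
    have h0 : (fun m => u (0 + m)) = u := by funext m; rw [zero_add]
    obtain ⟨hN1, hN2⟩ := hNN 0
    obtain ⟨hL1, hL2⟩ := hLL 0
    rw [h0] at hN1 hN2 hL1 hL2
    rw [zero_add] at hN1 hL1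
    simp only [zero_add] at hN2 hL2
    obtain ⟨hM1, hM2⟩ := hNN i
    obtain ⟨hK1, hK2⟩ := hLL i
    set N := NN b (ζ, u) with hNdef
    set L := LL b (ζ, u) with hLdef
    set N' := NN b (ζ, fun m => u (i + m)) with hN'def
    set L' := LL b (ζ, fun m => u (i + m)) with hL'def
    show col D N ((L + 1) % D) ≠ col D N' ((L' + 1) % D)
    have hbL : b ≤ L + 1 := hdist N (L + 1) hN1 hL1 (by omega)
    have hDb : D ≤ b := by nlinarith
    rcases Nat.lt_or_ge N i with hNi | hNi
    · -- the marker `N` is before `i`; the next one is `N + (L + 1)`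
      have hiP : i + N' = N + (L + 1) := by
        have hle : N' ≤ N + (L + 1) - i := by
          by_contra h
          push Not at h
          refine hM2 _ h ?_
          have : i + (N + (L + 1) - i) = N + (L + 1) := by omega
          rwa [this]
        have hge : N + (L + 1) ≤ i + N' := by
          by_contra h
          push Not at h
          refine hL2 (i + N' - N - 1) (by omega) ?_
          have : N + (i + N' - N - 1 + 1) = i + N' := by omega
          rwa [this]
        omega
      have hN'big : ((L' + 1) % D) * (D + 1) ≤ N' := by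
        have h1 : (L' + 1) % D < D := Nat.mod_lt _ hD
        have h2 : ((L' + 1) % D) * (D + 1) ≤ (D - 1) * (D + 1) := Nat.mul_le_mul_right _ (by omega)
        have h3 : (D - 1) * (D + 1) + (D + 1) = D * (D + 1) := by
          rw [← Nat.succ_mul]; congr 1; omega
        omega
      have e1 : col D N' ((L' + 1) % D) = N' % D := by unfold col; rw [if_pos hN'big]
      rw [e1]
      have e2 : N' % D = (N + (L + 1) % D + (D - i)) % D := by
        have h1 : (N + (L + 1) % D + (D - i)) % D = (N + (L + 1) + (D - i)) % D := by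
          rw [Nat.add_assoc, Nat.add_assoc, Nat.add_comm ((L + 1) % D), Nat.add_comm (L + 1),
            ← Nat.add_assoc, ← Nat.add_assoc]
          exact Nat.add_mod_mod _ _ _
        rw [h1]
        have h2 : N + (L + 1) + (D - i) = N' + D := by omega
        rw [h2, Nat.add_mod_right]
      rw [e2]
      exact col_ne_across hiD hNi
    · -- same marker
      have hiP : i + N' = N := by
        have hle : N' ≤ N - i := by
          by_contra h
          push Not at h
          refine hM2 _ h ?_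
          rwa [Nat.add_sub_cancel' hNi]
        have hge : N ≤ i + N' := by
          by_contra h
          push Not at h
          exact hN2 _ h hM1
        omega
      have hLL' : L' = L := by
        rw [hiP] at hK1 hK2
        apply le_antisymm
        · by_contra h
          push Not at h
          exact hK2 L h hL1
        · by_contra h
          push Not at h
          exact hL2 L' h hK1
      rw [hLL']
      have e1 : N = N' + i := by omega
      rw [e1]
      exact col_ne_same hi0 hiD

end Pool.Agent.H90.BCI
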